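import Pool.Agent.H30.CB.Clu

set_option autoImplicit false

namespace Pool.Agent.Results.MP_cb05ee_co.ClusterStability

/-- For every `n` there is a packing of unit discs of density `0` in which every set of discs,
finite or infinite, all of whose clusters (classes of discs joined by chains of touching discs of
the set) have at most `n` discs, is held fixed by the other discs. -/
theorem result (n : ℕ) : ∃ C : Set (EuclideanSpace ℝ (Fin 2)),
    C.Nonempty ∧
    (∀ x ∈ C, ∀ y ∈ C, x ≠ y → 2 ≤ dist x y) ∧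
    (∀ S : Set (EuclideanSpace ℝ (Fin 2)), S ⊆ C →
      (∀ x ∈ S, Set.encard {y | Relation.ReflTransGen
        (fun a b => a ∈ S ∧ b ∈ S ∧ dist a b = 2) x y} ≤ n) →
      ∀ f : EuclideanSpace ℝ (Fin 2) → ℝ → EuclideanSpace ℝ (Fin 2),
        (∀ x ∈ S, ContinuousOn (f x) (Set.Icc (0:ℝ) 1)) →
        (∀ x ∈ S, f x 0 = x) →
        (∀ x ∈ C, x ∉ S → ∀ t : ℝ, f x t = x) →
        (∀ t ∈ Set.Icc (0:ℝ) 1, ∀ x ∈ C, ∀ y ∈ C, x ≠ y → 2 ≤ dist (f x t) (f y t)) →
        ∀ x ∈ S, ∀ t ∈ Set.Icc (0:ℝ) 1, f x t = x) ∧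
    (∀ c : ℝ, 0 < c → ∀ᶠ R in Filter.atTop,
      MeasureTheory.volume ((⋃ x ∈ C, Metric.closedBall x 1) ∩
          Metric.closedBall (0 : EuclideanSpace ℝ (Fin 2)) R)
        ≤ ENNReal.ofReal c *
          MeasureTheory.volume (Metric.closedBall (0 : EuclideanSpace ℝ (Fin 2)) R)) := by
  obtain ⟨σ, H⟩ := Pool.Agent.H30.CB.exists_good (n+1) (by omega)
  let N := Pool.Agent.H30.CB.theNet (n+1) σ H.hR H.h0 H.h1
  refine ⟨Pool.Agent.H30.CB.packing N, Pool.Agent.H30.CB.packing_nonempty N,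
    Pool.Agent.H30.CB.packing_sep N H, ?_, Pool.Agent.H30.CB.packing_density N H⟩
  intro S hS hcl f hc h0 hfix hsep
  refine Pool.Agent.H30.CB.packing_cluster_locked N H S hS ?_ f hc h0 hfix hsep
  intro x hx
  refine lt_of_le_of_lt (hcl x hx) ?_
  exact_mod_cast Nat.lt_succ_self n

end Pool.Agent.Results.MP_cb05ee_co.ClusterStability
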